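import Pool.Agent.H44.NQ.Basic

/-!
# Exact packings of one board, checked by evaluation

The board has `n = 3 k` rows.  A list `G` has `n` entries below `n`; the pattern of the colour `C` has
the column `C - G i mod n` in the row `i`.  All lists used have the same entries mod `k`, and the list
used for the colour `C` depends on `C mod k` only.
-/

set_option autoImplicit false

namespace Pool.Agent.H44.QS

open Pool.Agent.H44.NQ

/-- `m` digits of `x` in the base `b`, the least significant first -/
def digs (b : ℕ) : ℕ → ℕ → List ℕ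
  | 0, _ => []
  | m + 1, x => (x % b) :: digs b m (x / b)

/-- all entries are distinct and are not bits of `M` -/
def nd : List ℕ → ℕ → Bool
  | [], _ => true
  | x :: xs, M => !(M.testBit x) && nd xs (M ||| 1 <<< x)

theorem testBit_or_one (M x y : ℕ) : (M ||| 1 <<< x).testBit y = (M.testBit y || decide (x = y)) := by
  rw [Nat.testBit_or, Nat.shiftLeft_eq, one_mul, Nat.testBit_two_pow]

theorem nd_sound : ∀ (L : List ℕ) (M : ℕ), nd L M = true → L.Nodup ∧ ∀ x ∈ L, M.testBit x = false
  | [], _, _ => by simp
  | x :: xs, M, h => by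
    simp only [nd, Bool.and_eq_true, Bool.not_eq_true'] at h
    obtain ⟨h1, h2⟩ := nd_sound xs _ h.2
    refine ⟨?_, ?_⟩
    · rw [List.nodup_cons]
      refine ⟨?_, h1⟩
      intro hx
      have := h2 x hx
      rw [testBit_or_one] at this
      simp at this
    · intro y hy
      rcases List.mem_cons.mp hy with rfl | hy
      · exact h.1
      · have := h2 y hy
        rw [testBit_or_one] at this
        simp only [Bool.or_eq_false_iff] at this
        exact this.1

/-- the column -/
def col (n C g : ℕ) : ℕ := (C + n - g) % n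

/-- the numbers `row - column + n` -/
def dl (n C : ℕ) : List ℕ → ℕ → List ℕ
  | [], _ => []
  | g :: gs, i => (i + n - col n C g) :: dl n C gs (i + 1)

/-- the numbers `row + column` -/
def al (n C : ℕ) : List ℕ → ℕ → List ℕ
  | [], _ => []
  | g :: gs, i => (i + col n C g) :: al n C gs (i + 1)

theorem dl_length (n C : ℕ) : ∀ (L : List ℕ) (i : ℕ), (dl n C L i).length = L.length
  | [], _ => rfl
  | _ :: gs, i => by simp [dl, dl_length n C gs (i + 1)]

theorem al_length (n C : ℕ) : ∀ (L : List ℕ) (i : ℕ), (al n C L i).length = L.length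
  | [], _ => rfl
  | _ :: gs, i => by simp [al, al_length n C gs (i + 1)]

theorem dl_get (n C : ℕ) : ∀ (L : List ℕ) (i a : ℕ) (ha : a < L.length),
    (dl n C L i)[a]'(by rw [dl_length]; exact ha) = i + a + n - col n C L[a]
  | [], _, _, h => by simp at h
  | g :: gs, i, 0, _ => by simp [dl]
  | g :: gs, i, a + 1, h => by
    have h' : a < gs.length := by simpa using h
    have := dl_get n C gs (i + 1) a h'
    simp only [dl, List.getElem_cons_succ]
    rw [this]
    congr 1
    omega

theorem al_get (n C : ℕ) : ∀ (L : List ℕ) (i a : ℕ) (ha : a < L.length),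
    (al n C L i)[a]'(by rw [al_length]; exact ha) = i + a + col n C L[a]
  | [], _, _, h => by simp at h
  | g :: gs, i, 0, _ => by simp [al]
  | g :: gs, i, a + 1, h => by
    have h' : a < gs.length := by simpa using h
    have := al_get n C gs (i + 1) a h'
    simp only [al, List.getElem_cons_succ]
    rw [this]
    omega

/-- the check of a list of shifts -/
def okG (k n : ℕ) (phi : List ℕ) (G : List ℕ) : Bool :=
  (G.length == n) && (nd G 0 && (G.all (fun g => decide (g < n)) && (G.map (fun g => g % k) == phi)))

/-- the check of a colour -/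
def okC (n C : ℕ) (G : List ℕ) : Bool := nd (dl n C G 0) 0 && nd (al n C G 0) 0

/-- the check of a colour, all in one loop: `X` holds the remaining digits in the base `n` -/
noncomputable def go (n C m : ℕ) : ℕ → ℕ → ℕ → ℕ → Bool :=
  Nat.rec (motive := fun _ => ℕ → ℕ → ℕ → ℕ → Bool) (fun _ _ _ _ => true)
    (fun _ ih X i D A =>
      (fun j => bif Nat.beq (Nat.land 1 (Nat.shiftRight D (Nat.sub (Nat.add i n) j))) 0 then
        (bif Nat.beq (Nat.land 1 (Nat.shiftRight A (Nat.add i j))) 0 then
          ih (Nat.div X n) (Nat.succ i) (Nat.lor D (Nat.shiftLeft 1 (Nat.sub (Nat.add i n) j)))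
            (Nat.lor A (Nat.shiftLeft 1 (Nat.add i j))) else false) else false)
      (Nat.mod (Nat.sub (Nat.add C n) (Nat.mod X n)) n)) m

theorem beq_land (M x : ℕ) : Nat.beq (Nat.land 1 (Nat.shiftRight M x)) 0 = !(M.testBit x) := by
  have h1 : M.testBit x = (1 &&& (M >>> x) != 0) := rfl
  rw [h1]
  show Nat.beq (1 &&& (M >>> x)) 0 = !((1 &&& (M >>> x)) != 0)
  rcases h : (1 &&& (M >>> x)) with _ | z
  · rfl
  · rfl

theorem go_eq (n C : ℕ) : ∀ (m X i D A : ℕ), go n C m X i D A = true →
    nd (dl n C (digs n m X) i) D = true ∧ nd (al n C (digs n m X) i) A = true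
  | 0, _, _, _, _, _ => ⟨rfl, rfl⟩
  | m + 1, X, i, D, A, h => by
    have h' : (bif Nat.beq (Nat.land 1 (Nat.shiftRight D (i + n - col n C (X % n)))) 0 then
        (bif Nat.beq (Nat.land 1 (Nat.shiftRight A (i + col n C (X % n)))) 0 then
          go n C m (X / n) (i + 1) (D ||| 1 <<< (i + n - col n C (X % n)))
            (A ||| 1 <<< (i + col n C (X % n))) else false) else false) = true := h
    rw [beq_land, beq_land] at h'
    cases h1 : D.testBit (i + n - col n C (X % n)) with
    | true => rw [h1] at h'; simp at h'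
    | false =>
      cases h2 : A.testBit (i + col n C (X % n)) with
      | true => rw [h1, h2] at h'; simp at h'
      | false =>
        rw [h1, h2] at h'
        have h3 := go_eq n C m _ _ _ _ h'
        simp only [digs, dl, al, nd, h1, h2, Bool.not_false, Bool.true_and]
        exact h3

/-- the check of all colours below `m` -/
noncomputable def okCs (k n : ℕ) (Xs : List ℕ) (cls : List ℕ) (m : ℕ) : Bool :=
  Nat.rec (motive := fun _ => Bool) true
    (fun c ih => bif go n c n (Xs.getD (cls.getD (c % k) 0) 0) 0 0 0 then ih else false) m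

theorem okCs_sound {k n : ℕ} {Xs : List ℕ} {cls : List ℕ} : ∀ (m : ℕ),
    okCs k n Xs cls m = true → ∀ C < m, okC n C (digs n n (Xs.getD (cls.getD (C % k) 0) 0)) = true
  | 0, _, _, h => absurd h (Nat.not_lt_zero _)
  | m + 1, h, C, hC => by
    have h' : (bif go n m n (Xs.getD (cls.getD (m % k) 0) 0) 0 0 0 then okCs k n Xs cls m
      else false) = true := h
    cases h1 : go n m n (Xs.getD (cls.getD (m % k) 0) 0) 0 0 0 with
    | false => rw [h1] at h'; simp at h'
    | true =>
      rw [h1] at h'
      rcases Nat.lt_succ_iff_lt_or_eq.mp hC with h2 | h2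
      · exact okCs_sound m h' C h2
      · rw [h2]
        have := go_eq n m n _ _ _ _ h1
        simp only [okC, Bool.and_eq_true]
        exact this

/-- the whole check; the lists are given by their digits in the base `3 k` -/
noncomputable def okAll (k : ℕ) (Xs : List ℕ) (cls : List ℕ) : Bool :=
  decide (0 < k) && ((cls.length == k) && (cls.all (fun c => decide (c < Xs.length)) &&
    (Xs.all (fun X => okG k (3 * k) ((digs (3 * k) (3 * k) (Xs.getD 0 0)).map (fun g => g % k))
      (digs (3 * k) (3 * k) X)) && okCs k (3 * k) Xs cls (3 * k))))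

theorem col_lt {n C g : ℕ} (hn : 0 < n) : col n C g < n := Nat.mod_lt _ hn

theorem col_cast {n C g : ℕ} (hC : C < n) (hg : g < n) :
    (col n C g : ℤ) = (C : ℤ) - g ∨ (col n C g : ℤ) = (C : ℤ) - g + n := by
  unfold col
  rcases le_or_gt g C with h | h
  · left
    have h1 : C + n - g = (C - g) + n := by omega
    rw [h1, Nat.add_mod_right, Nat.mod_eq_of_lt (by omega)]
    omega
  · right
    rw [Nat.mod_eq_of_lt (by omega)]
    omega

theorem packs_of {k : ℕ} {Xs : List ℕ} {cls : List ℕ} (h : okAll k Xs cls = true) :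
    Packs (3 * k) (3 * k) := by
  simp only [okAll, Bool.and_eq_true, decide_eq_true_eq, beq_iff_eq] at h
  obtain ⟨hk, hcl, hca, hG, hC⟩ := h
  have hn : 0 < 3 * k := by omega
  set n := 3 * k with hn'
  set phi := (digs n n (Xs.getD 0 0)).map (fun g => g % k) with hphi
  have hC' := okCs_sound n hC
  -- the list of a colour
  let Lc : ℕ → List ℕ := fun C => digs n n (Xs.getD (cls.getD (C % k) 0) 0)
  have hmem : ∀ C, Xs.getD (cls.getD (C % k) 0) 0 ∈ Xs := by
    intro C
    have h1 : C % k < cls.length := by rw [hcl]; exact Nat.mod_lt _ hk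
    have h2 : cls.getD (C % k) 0 = cls[C % k] := by
      rw [List.getD_eq_getElem _ _ h1]
    have h3 : cls[C % k] < Xs.length := by
      have := List.all_eq_true.mp hca _ (List.getElem_mem h1)
      simpa using this
    rw [h2, List.getD_eq_getElem _ _ h3]
    exact List.getElem_mem h3
  have hok : ∀ C, (Lc C).length = n ∧ (Lc C).Nodup ∧ (∀ g ∈ Lc C, g < n) ∧
      (Lc C).map (fun g => g % k) = phi := by
    intro C
    have := List.all_eq_true.mp hG _ (hmem C)
    change okG k n phi (Lc C) = true at this
    simp only [okG, Bool.and_eq_true, beq_iff_eq] at this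
    obtain ⟨h1, h2, h3, h4⟩ := this
    refine ⟨h1, (nd_sound _ _ h2).1, ?_, h4⟩
    intro g hg
    have := List.all_eq_true.mp h3 g hg
    simpa using this
  have hlt : ∀ C i, i < n → i < (Lc C).length := fun C i hi => by rw [(hok C).1]; exact hi
  let g : ℕ → ℕ → ℕ := fun C i => (Lc C).getD i 0
  have hgget : ∀ C i (hi : i < n), g C i = (Lc C)[i]'(hlt C i hi) := fun C i hi =>
    List.getD_eq_getElem _ _ (hlt C i hi)
  have hgn : ∀ C i, i < n → g C i < n := by
    intro C i hi
    rw [hgget C i hi]
    exact (hok C).2.2.1 _ (List.getElem_mem _)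
  have hginj : ∀ C i i', i < n → i' < n → g C i = g C i' → i = i' := by
    intro C i i' hi hi' he
    rw [hgget C i hi, hgget C i' hi'] at he
    exact ((hok C).2.1.getElem_inj_iff).mp he
  have hgk : ∀ C C' i, i < n → g C i % k = g C' i % k := by
    intro C C' i hi
    have h1 : (Lc C).map (fun g => g % k) = (Lc C').map (fun g => g % k) := by
      rw [(hok C).2.2.2, (hok C').2.2.2]
    have h2 : ((Lc C).map (fun g => g % k)).getD i 0 = ((Lc C').map (fun g => g % k)).getD i 0 := by rw [h1]
    rw [List.getD_eq_getElem _ _ (by rw [List.length_map]; exact hlt C i hi),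
      List.getD_eq_getElem _ _ (by rw [List.length_map]; exact hlt C' i hi)] at h2
    simp only [List.getElem_map] at h2
    rw [hgget C i hi, hgget C' i hi]
    exact h2
  rw [packs_iff]
  refine ⟨fun C i => ⟨col n C (g C i), col_lt hn⟩, ?_, ?_⟩
  · intro C
    intro i i' hne
    have hii : (i : ℕ) ≠ (i' : ℕ) := fun h => hne (Fin.ext h)
    have hc := col_cast C.2 (hgn C i i.2)
    have hc' := col_cast C.2 (hgn C i' i'.2)
    have hgne : g C i ≠ g C i' := fun h => hii (hginj C i i' i.2 i'.2 h)
    have hgl := hgn C i i.2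
    have hgl' := hgn C i' i'.2
    have hoc := hC' C C.2
    simp only [okC, Bool.and_eq_true] at hoc
    have hd := (nd_sound _ _ hoc.1).1
    have ha := (nd_sound _ _ hoc.2).1
    have hcl1 : col n C (g C i) < n := col_lt hn
    have hcl2 : col n C (g C i') < n := col_lt hn
    refine ⟨?_, ?_, ?_⟩
    · intro he
      have he' : (col n C (g C i) : ℤ) = (col n C (g C i') : ℤ) := by
        have := congrArg Fin.val he
        exact_mod_cast this
      rcases hc with hc | hc <;> rcases hc' with hc' | hc' <;> rw [hc, hc'] at he' <;> omega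
    · intro he
      apply hii
      have h1 := dl_get n C (Lc C) 0 i (hlt C i i.2)
      have h2 := dl_get n C (Lc C) 0 i' (hlt C i' i'.2)
      rw [← hgget C i i.2] at h1
      rw [← hgget C i' i'.2] at h2
      simp only at he
      have h3 : (0 + (i : ℕ) + n - col n C (g C i)) = (0 + (i' : ℕ) + n - col n C (g C i')) := by
        omega
      rw [← h1, ← h2] at h3
      exact (hd.getElem_inj_iff).mp h3
    · intro he
      apply hii
      have h1 := al_get n C (Lc C) 0 i (hlt C i i.2)
      have h2 := al_get n C (Lc C) 0 i' (hlt C i' i'.2)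
      rw [← hgget C i i.2] at h1
      rw [← hgget C i' i'.2] at h2
      simp only at he
      have h3 : (0 + (i : ℕ) + col n C (g C i)) = (0 + (i' : ℕ) + col n C (g C i')) := by
        omega
      rw [← h1, ← h2] at h3
      exact (ha.getElem_inj_iff).mp h3
  · intro C C' hne i he
    apply hne
    have he' : (col n C (g C i) : ℤ) = (col n C' (g C' i) : ℤ) := by
      have := congrArg Fin.val he
      exact_mod_cast this
    have hc := col_cast C.2 (hgn C i i.2)
    have hc' := col_cast C'.2 (hgn C' i i.2)
    have hk1 := hgk C C' i i.2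
    have hk2 : (k : ℤ) ∣ (g C i : ℤ) - (g C' i : ℤ) := by
      have h1 := Nat.div_add_mod (g C i) k
      have h2 := Nat.div_add_mod (g C' i) k
      refine ⟨(g C i / k : ℕ) - (g C' i / k : ℕ), ?_⟩
      have h1' : (k : ℤ) * ((g C i / k : ℕ) : ℤ) + ((g C i % k : ℕ) : ℤ) = (g C i : ℤ) := by exact_mod_cast h1
      have h2' : (k : ℤ) * ((g C' i / k : ℕ) : ℤ) + ((g C' i % k : ℕ) : ℤ) = (g C' i : ℤ) := by exact_mod_cast h2
      rw [hk1] at h1'
      linear_combination h2' - h1'
    have hkn : (n : ℤ) = 3 * (k : ℤ) := by rw [hn']; push_cast; ring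
    have hCC : (k : ℤ) ∣ (C : ℤ) - (C' : ℤ) := by
      obtain ⟨z, hz⟩ := hk2
      rcases hc with hc | hc <;> rcases hc' with hc' | hc' <;> rw [hc, hc'] at he'
      · exact ⟨z, by linear_combination he' + hz⟩
      · exact ⟨z + 3, by linear_combination he' + hz + hkn⟩
      · exact ⟨z - 3, by linear_combination he' + hz - hkn⟩
      · exact ⟨z, by linear_combination he' + hz⟩
    have hCk : (C : ℕ) % k = (C' : ℕ) % k := by
      have h1 : (C : ℤ) ≡ (C' : ℤ) [ZMOD (k : ℤ)] := by
        rw [Int.modEq_iff_dvd]
        obtain ⟨z, hz⟩ := hCC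
        exact ⟨-z, by linear_combination -hz⟩
      have h2 := h1
      unfold Int.ModEq at h2
      exact_mod_cast h2
    have hgg : g C i = g C' i := by
      show (digs n n (Xs.getD (cls.getD ((C : ℕ) % k) 0) 0)).getD (i : ℕ) 0 =
        (digs n n (Xs.getD (cls.getD ((C' : ℕ) % k) 0) 0)).getD (i : ℕ) 0
      rw [hCk]
    have h1 := C.2
    have h2 := C'.2
    rw [hgg] at hc he'
    apply Fin.ext
    rcases hc with hc | hc <;> rcases hc' with hc' | hc' <;> rw [hc, hc'] at he' <;> omega

theorem q_of {k : ℕ} {Xs : List ℕ} {cls : List ℕ} (h : okAll k Xs cls = true) :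
    Q (3 * k) = 3 * k := by
  have hk : 0 < k := by
    have h' := h
    simp only [okAll, Bool.and_eq_true, decide_eq_true_eq] at h'
    exact h'.1
  have hn : 1 ≤ 3 * k := by omega
  exact le_antisymm (q_le hn) (le_q hn (packs_of h))

end Pool.Agent.H44.QS
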