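import Pool.Agent.H44.QS.Core

/-!
# Explicit packings of one board, checked by evaluation

`T` is the list of the patterns; the pattern `G` has the column `- G i mod n` in the row `i`.
-/

set_option autoImplicit false

namespace Pool.Agent.H44.QS

open Pool.Agent.H44.NQ

/-- the check of one pattern -/
def okE1 (n : ℕ) (G : List ℕ) : Bool :=
  (G.length == n) && (nd G 0 && (G.all (fun g => decide (g < n)) && okC n 0 G))

/-- the rows below `m` have distinct entries -/
def okRows (T : List (List ℕ)) : ℕ → Bool
  | 0 => true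
  | m + 1 => nd (T.map fun G => G.getD m 0) 0 && okRows T m

theorem okRows_sound {T : List (List ℕ)} : ∀ (m : ℕ), okRows T m = true → ∀ i < m,
    (T.map fun G => G.getD i 0).Nodup
  | 0, _, _, h => absurd h (Nat.not_lt_zero _)
  | m + 1, h, i, hi => by
    simp only [okRows, Bool.and_eq_true] at h
    rcases Nat.lt_succ_iff_lt_or_eq.mp hi with h1 | h1
    · exact okRows_sound m h.2 i h1
    · rw [h1]; exact (nd_sound _ _ h.1).1

/-- the whole check -/
def okE (n : ℕ) (T : List (List ℕ)) : Bool :=
  decide (0 < n) && ((T.length == n) && (T.all (fun G => okE1 n G) && okRows T n))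

theorem q_of_expl {n : ℕ} {T : List (List ℕ)} (h : okE n T = true) : Q n = n := by
  simp only [okE, Bool.and_eq_true, decide_eq_true_eq, beq_iff_eq] at h
  obtain ⟨hn, hT, hG, hR⟩ := h
  refine le_antisymm (q_le hn) (le_q hn ?_)
  have hR' := okRows_sound n hR
  have hTl : ∀ C, C < n → C < T.length := fun C hC => by rw [hT]; exact hC
  let Lc : Fin n → List ℕ := fun C => T[(C : ℕ)]'(hTl C C.2)
  have hok : ∀ C, (Lc C).length = n ∧ (Lc C).Nodup ∧ (∀ g ∈ Lc C, g < n) ∧ okC n 0 (Lc C) = true := by
    intro C
    have := List.all_eq_true.mp hG _ (List.getElem_mem (hTl C C.2))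
    simp only [okE1, Bool.and_eq_true, beq_iff_eq] at this
    obtain ⟨h1, h2, h3, h4⟩ := this
    refine ⟨h1, (nd_sound _ _ h2).1, ?_, h4⟩
    intro g hg
    have := List.all_eq_true.mp h3 g hg
    simpa using this
  have hlt : ∀ C i, i < n → i < (Lc C).length := fun C i hi => by rw [(hok C).1]; exact hi
  let g : Fin n → ℕ → ℕ := fun C i => (Lc C).getD i 0
  have hgget : ∀ C i (hi : i < n), g C i = (Lc C)[i]'(hlt C i hi) := fun C i hi =>
    List.getD_eq_getElem _ _ (hlt C i hi)
  have hgn : ∀ C i, i < n → g C i < n := by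
    intro C i hi
    rw [hgget C i hi]
    exact (hok C).2.2.1 _ (List.getElem_mem _)
  have hginj : ∀ C i i', i < n → i' < n → g C i = g C i' → i = i' := by
    intro C i i' hi hi' he
    rw [hgget C i hi, hgget C i' hi'] at he
    exact ((hok C).2.1.getElem_inj_iff).mp he
  rw [packs_iff]
  refine ⟨fun C i => ⟨col n 0 (g C i), col_lt hn⟩, ?_, ?_⟩
  · intro C
    intro i i' hne
    have hii : (i : ℕ) ≠ (i' : ℕ) := fun h => hne (Fin.ext h)
    have hc := col_cast hn (hgn C i i.2)
    have hc' := col_cast hn (hgn C i' i'.2)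
    have hgne : g C i ≠ g C i' := fun h => hii (hginj C i i' i.2 i'.2 h)
    have hgl := hgn C i i.2
    have hgl' := hgn C i' i'.2
    have hoc := (hok C).2.2.2
    simp only [okC, Bool.and_eq_true] at hoc
    have hd := (nd_sound _ _ hoc.1).1
    have ha := (nd_sound _ _ hoc.2).1
    have hcl1 : col n 0 (g C i) < n := col_lt hn
    have hcl2 : col n 0 (g C i') < n := col_lt hn
    refine ⟨?_, ?_, ?_⟩
    · intro he
      have he' : (col n 0 (g C i) : ℤ) = (col n 0 (g C i') : ℤ) := by
        have := congrArg Fin.val he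
        exact_mod_cast this
      rcases hc with hc | hc <;> rcases hc' with hc' | hc' <;> rw [hc, hc'] at he' <;> omega
    · intro he
      apply hii
      have h1 := dl_get n 0 (Lc C) 0 i (hlt C i i.2)
      have h2 := dl_get n 0 (Lc C) 0 i' (hlt C i' i'.2)
      rw [← hgget C i i.2] at h1
      rw [← hgget C i' i'.2] at h2
      simp only at he
      have h3 : (0 + (i : ℕ) + n - col n 0 (g C i)) = (0 + (i' : ℕ) + n - col n 0 (g C i')) := by
        omega
      rw [← h1, ← h2] at h3
      exact (hd.getElem_inj_iff).mp h3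
    · intro he
      apply hii
      have h1 := al_get n 0 (Lc C) 0 i (hlt C i i.2)
      have h2 := al_get n 0 (Lc C) 0 i' (hlt C i' i'.2)
      rw [← hgget C i i.2] at h1
      rw [← hgget C i' i'.2] at h2
      simp only at he
      have h3 : (0 + (i : ℕ) + col n 0 (g C i)) = (0 + (i' : ℕ) + col n 0 (g C i')) := by
        omega
      rw [← h1, ← h2] at h3
      exact (ha.getElem_inj_iff).mp h3
  · intro C C' hne i he
    apply hne
    have he' : (col n 0 (g C i) : ℤ) = (col n 0 (g C' i) : ℤ) := by
      have := congrArg Fin.val he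
      exact_mod_cast this
    have hc := col_cast hn (hgn C i i.2)
    have hc' := col_cast hn (hgn C' i i.2)
    have hgl := hgn C i i.2
    have hgl' := hgn C' i i.2
    have hgg : g C i = g C' i := by
      rcases hc with hc | hc <;> rcases hc' with hc' | hc' <;> rw [hc, hc'] at he' <;> omega
    have hr := hR' i i.2
    have hl1 : (C : ℕ) < (T.map fun G => G.getD (i : ℕ) 0).length := by
      rw [List.length_map]; exact hTl C C.2
    have hl2 : (C' : ℕ) < (T.map fun G => G.getD (i : ℕ) 0).length := by
      rw [List.length_map]; exact hTl C' C'.2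
    have h3 : (T.map fun G => G.getD (i : ℕ) 0)[(C : ℕ)]'hl1 =
        (T.map fun G => G.getD (i : ℕ) 0)[(C' : ℕ)]'hl2 := by
      simp only [List.getElem_map]
      exact hgg
    exact Fin.ext ((hr.getElem_inj_iff).mp h3)

end Pool.Agent.H44.QS
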