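import Pool.Agent.H44.QS.Expl

/-!
# An explicit packing of the board with 15 rows
-/

set_option autoImplicit false

namespace Pool.Agent.H44.QS

open Pool.Agent.H44.NQ

theorem q15 : Q 15 = 15 :=
  q_of_expl (T := [
    [12, 3, 6, 2, 9, 11, 0, 8, 1, 5, 7, 14, 10, 13, 4],
    [0, 13, 11, 5, 14, 2, 4, 10, 8, 3, 1, 12, 7, 9, 6],
    [10, 7, 9, 4, 0, 13, 8, 6, 12, 14, 2, 11, 5, 3, 1],
    [2, 8, 14, 12, 10, 3, 5, 11, 4, 1, 13, 6, 9, 7, 0],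
    [1, 9, 7, 10, 3, 0, 12, 5, 11, 13, 6, 4, 2, 8, 14],
    [5, 1, 8, 11, 7, 14, 2, 9, 0, 6, 3, 10, 13, 4, 12],
    [4, 12, 3, 6, 13, 10, 1, 7, 14, 2, 9, 5, 8, 0, 11],
    [13, 10, 1, 3, 5, 7, 11, 0, 6, 12, 14, 8, 4, 2, 9],
    [7, 14, 12, 8, 2, 4, 10, 1, 5, 9, 11, 13, 0, 6, 3],
    [6, 0, 5, 14, 4, 9, 7, 12, 2, 11, 8, 1, 3, 10, 13],
    [3, 6, 13, 0, 8, 5, 14, 4, 9, 7, 12, 2, 11, 1, 10],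
    [14, 4, 2, 9, 12, 6, 13, 3, 10, 8, 5, 0, 1, 11, 7],
    [9, 5, 0, 1, 11, 8, 6, 13, 3, 10, 4, 7, 14, 12, 2],
    [11, 2, 10, 13, 6, 1, 3, 14, 7, 4, 0, 9, 12, 5, 8],
    [8, 11, 4, 7, 1, 12, 9, 2, 13, 0, 10, 3, 6, 14, 5]]) (by decide +kernel)

end Pool.Agent.H44.QS
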